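import Pool.Agent.KS6_81.HP.Thm
import Pool.Graph.R_pool_sql_team_seeded_620a6dc7.helper748_eq_.Main
import Pool.Graph.R_pool_sql_team_seeded_620a6dc7.helper748_mc_.FanThm

set_option autoImplicit false

/-! # The equivariant motivic monodromy conjecture for forms in three variables with a point of
# multiplicity greater than `2d/3`

Let `f` be a form of degree `d` in three variables. The equivariant motivic zeta function
`Z_f(T) ∈ 𝓜^μ_{X_s}[[T]]` of Denef and Loeser, over `X_s = {f = 0}` and with the action of `μ`, is
computed from the curve `f = 0` in the projective plane by blowing up points: see `EqCone`, where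
`M = 𝓜^μ_{X_s}`. The classes of the coverings `Ẽ_I°` of the strata of the resolution are arbitrary
elements of `M` in `EqCone`, except for the intersection points of components, and for the open parts
of the exceptional curves over a point on which at most two points have a nonzero intersection
number with the other components (`IsCov`): these are the classes which occur in the cancellation.
All denominators of `Z_f(T)` except `(d, 3)` belong to roots of `b_f` (starting library, `cone_eq`). The
question is whether `-3/d` is a root.

We prove this if the curve has a point `P` of multiplicity `d - k > 2d/3` with a mild tangent cone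
(`HeavyPoint`), for instance an ordinary multiple point. There is no condition on the other
singularities or the multiple components of the curve, except that some line through `P`, which is
not in the tangent cone, meets the curve in at least two more points (so `k ≥ 2`). The log canonical
threshold of the cone is at most `2/(d - k) < 3/d`.

The proof uses the complex powers `|f|^(2s)`. Let `b(s) f^s = P(s) f^(s+1)`. Then the integral of
`|f|^(2s) ψ`, `ψ` a test function on `ℂ^3`, times `b(s) \bar b(s)`, has an analytic continuation to
`s > -1` (`crit`, from the functional equation for `|f|²` in the real coordinates). Integrate first over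
the lines through `P`. On such a line `f = A_0(t) ∏ (x - r_i(t))`, and for the test functions
`ϑ_s(x) = θ(x/2) - 2^(2ks+2) θ(x)` the integral of `|x|^(2ks) ϑ_s` is zero (`2ks > -2`). By this and the
inequality of the arithmetic and the geometric mean, the integral of `∏ |x - r_i|^(2s) ϑ_s`, for
small `r_i`, is up to small terms the integral of `(1/k) ∑ |x - r_i|^(2ks) - ∏ |x - r_i|^(2s) ≥ 0`
times `-ϑ_s(0) > 0`. The resulting function of `t` is homogeneous of the degree `2ds + 2` (in `|t|`), it
is integrable near `0` only for `s > -3/d`, and the integral over `t` tends to infinity for
`s → -3/d`. -/

namespace Pool.Agent.Results.MP_b48657_ag.HeavyPointForms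

open MvPolynomial Pool.Agent.W574.CN Pool.Agent.W574.MO Pool.Agent.H628R4.TP
  Pool.Agent.Helper748.MC Pool.Agent.Helper748.EQ Pool.Agent.KS6_81.HP

/-- **The equivariant motivic monodromy conjecture (over `X_s`, with the action of `μ`, in the form
with the roots of `b_f`) holds for the forms `f` of degree `d` in three variables with a point of
multiplicity greater than `2d/3` and a mild tangent cone** (`HeavyPoint`). Here `b` is any polynomial
which satisfies a global or local functional equation `b(s) f ^ s = P(s) f ^ (s + 1)`, in particular
the Bernstein-Sato polynomial of `f`, and `Z` is (of the form of) the equivariant motivic zeta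
function of `f`, see `EqCone`, with `M = 𝓜^μ_{X_s}` as the main example. The conclusion is that `Z`
lies in the ring `M[T][(1 - L⁻ⁿ Tᵃ)⁻¹]`, where the pairs `a, n ≥ 1` are such that `-n/a` is a root
of `b`. -/
theorem result {M : Type} [CommRing M] (L : Mˣ) (f : MvPolynomial (Fin 3) ℂ) (d : ℕ)
    (hf : f.IsHomogeneous d) (h : HeavyPoint d f) (b : Polynomial ℂ)
    (hb : IsBFunction f b ∨ IsLocalBFunction f b) (Z : PowerSeries M) (hZ : EqCone L f d Z) :
    Z ∈ DenRing L (RootPair b) := by
  have hb' := global_of f h.ne_zero d hf b hb
  exact cone_eq L f d hf b (funEq_unit f b hb') (heavy_root h hb') Z hZ

end Pool.Agent.Results.MP_b48657_ag.HeavyPointForms
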