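import Pool.Agent.KS6_80.RC.Eq

set_option autoImplicit false

/-! # The equivariant motivic monodromy conjecture for products of powers of transversal forms with
# a real chamber

Let `F_i` be forms in `N = m + 1 ≥ 2` variables such that the hypersurfaces `F_i = 0` of the complex
projective space are smooth and cross each other transversally, and let `f = ∏ F_i ^ (n_i)` be of
degree `d > 0`. Suppose that `f` has, in some complex linear coordinates and up to a constant
factor, real coefficients and a chamber with a mild boundary (`HasChamber`); so only those
multiplicities `n_i` have to be at most `d/N` for which `F_i = 0` meets the closure of the chamber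
outside of the origin. Then the equivariant motivic zeta function of Denef and Loeser of `f`, over
`X_s = {f = 0}` and with the action of `μ`, has only denominators which belong to roots of the
Bernstein-Sato polynomial.

For example, `f = (x_0 ^ 2 - x_1 ^ 2 - … - x_m ^ 2) ^ n ∏ F_i ^ (n_i)`, where the real hypersurfaces
`F_i = 0` do not meet the closed light cone `x_0 ^ 2 ≥ x_1 ^ 2 + … + x_m ^ 2` except at the origin,
`n ≤ d/N`, and the `n_i` are arbitrary (large).

* The numbers `-1/n_i` are roots (`root_k`).
* The root `-N/d` (`root_cone`): the integral of `f ^ s` over the part of the chamber in a ball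
  converges for `s > -N/d` and tends to infinity for `s → -N/d`; a functional equation with
  `b(-N/d) ≠ 0` would give an analytic continuation (starting library, `T6.H16.RA`, where this is used
  for real arrangements). Near the boundary: `locInt_snc`, `locInt_mult`. -/

namespace Pool.Agent.Results.MP_b48657_ag.RealChamberCrossings

open MvPolynomial Pool.Agent.W574.MO Pool.Agent.H628R4.TP
open Pool.Agent.KS6_80.RC (HasChamber root_hasChamber ne_zero_of_chamber SncEqZeta)
open Pool.Agent.KS6_80.SN (Snc)

/-- **The equivariant motivic monodromy conjecture for `f = ∏ F_i ^ (n_i)` with a real chamber**, in any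
number `N = m + 1 ≥ 2` of variables: the `F_i` are forms of the degrees `e_i > 0` such that the
`F_i = 0` are smooth and transversal to each other in the complex projective space (`Snc`),
`d = ∑ n_i e_i > 0` is the degree of `f`, and `f` has a chamber with a mild boundary in some linear
coordinates (`HasChamber`). Here `b` is any polynomial which satisfies a global or local functional
equation `b(s) f ^ s = P(s) f ^ (s + 1)`, in particular the Bernstein-Sato polynomial of `f`, and `Z` is
(of the form of) the equivariant motivic zeta function of `f`, see `SncEqZeta`, with `M = 𝓜^μ_{X_s}`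
as the main example. The conclusion is that `Z` lies in the ring `M[T][(1 - L⁻ⁿ Tᵃ)⁻¹]`, where the
pairs `a, n ≥ 1` are such that `-n/a` is a root of `b`. -/
theorem result {M : Type} [CommRing M] (L : Mˣ) {m : ℕ} (hm : 1 ≤ m) {κ : Type} [Fintype κ]
    (F : κ → MvPolynomial (Fin (m + 1)) ℂ) (e n : κ → ℕ) (hF : ∀ i, (F i).IsHomogeneous (e i))
    (he : ∀ i, 0 < e i) (hS : Snc F) (d : ℕ) (hd : 0 < d) (hfd : d = ∑ i, n i * e i)
    (hU : HasChamber (∏ i, F i ^ n i) d) (b : Polynomial ℂ)
    (hb : IsBFunction (∏ i, F i ^ n i) b ∨ IsLocalBFunction (∏ i, F i ^ n i) b)
    (Z : PowerSeries M) (hZ : SncEqZeta L (m + 1) d n Z) : Z ∈ DenRing L (RootPair b) := by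
  classical
  have hhom : (∏ i, F i ^ n i).IsHomogeneous d := by
    rw [hfd]
    refine IsHomogeneous.prod _ _ _ fun i _ => ?_
    rw [mul_comm]
    exact (hF i).pow (n i)
  have hb' : IsBFunction (∏ i, F i ^ n i) b := by
    rcases hb with hb | hb
    · exact hb
    · exact global_of_local _ (ne_zero_of_chamber hU) d hhom b hb
  exact Pool.Agent.KS6_80.RC.snc_eq L (by omega) F e n hF he
    (Pool.Agent.KS6_80.RC.ne_zero_of_snc F hS) hS d b hb' (root_hasChamber hd hU hb') Z hZ

end Pool.Agent.Results.MP_b48657_ag.RealChamberCrossings
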