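import Pool.Agent.KS6_80.RC.Thm
import Pool.Graph.R_pool_sql_team_seeded_620a6dc7.helper748_eq_.Main
import Pool.Graph.R_pool_sql_team_seeded_620a6dc7.helper748_mc_.FanThm

set_option autoImplicit false

/-! # The equivariant motivic monodromy conjecture for forms in three variables with a real chamber
# with a mild boundary

Let `f` be a form of degree `d > 0` in three variables, with arbitrary singularities and
multiplicities, which in some linear coordinates and up to a constant factor has real coefficients
and a chamber `U` with a mild boundary (`HasChamber`): an open cone in `ℝ ^ 3` on which `f > 0`, such
that `f = 0` on the boundary and near every point `x ≠ 0` of the boundary `f ^ s` is integrable on `U`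
for `s > -3/d`; this is so if the multiplicity of `f` at `x` is at most `d/3`, or if the curve has
normal crossings at `x` with multiplicities at most `d/3` of the components. The equivariant motivic
zeta function `Z_f(T) ∈ 𝓜^μ_{X_s}[[T]]` of Denef and Loeser, over `X_s = {f = 0}` and with the action of
`μ`, is computed from the curve `f = 0` in the projective plane by blowing up points: see `EqCone`,
where `M = 𝓜^μ_{X_s}`. The classes of the coverings `Ẽ_I°` of the strata of the resolution are
arbitrary elements of `M` in `EqCone`, except for the intersection points of components, and for
the open parts of the exceptional curves over a point on which at most two points have a nonzero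
intersection number with the other components (`IsCov`): these are the classes which occur in the
cancellation.

For example, let the real curve `f = 0` have an oval without singular points, on which `f` vanishes
with a multiplicity at most `d/3`. Then the theorem applies, for arbitrary singularities and
multiplicities of the curve outside of the oval, real or not; the log canonical threshold of `f` may
be much smaller than `3/d`. Or let `f` have no real zero at all except the origin.

* All poles except possibly `-3/d` belong to roots of `b` (starting library, `cone_eq`).
* The root `-3/d` (`root_cone`): the integral of `f ^ s` over the part of `U` in a ball converges for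
  `s > -3/d` and tends to infinity for `s → -3/d`, because it is the integral over an annulus times a
  geometric series; a functional equation with `b(-3/d) ≠ 0` would give an analytic continuation
  (starting library, `T6.H16.RA`, where this is used for real arrangements). The integrability near
  the boundary: `locInt_mult` (sublevel sets of functions whose `m`-th derivative is bounded from
  below) and `locInt_snc` (change of coordinates). -/

namespace Pool.Agent.Results.MP_b48657_ag.RealChamberForms

open MvPolynomial Pool.Agent.W574.CN Pool.Agent.W574.MO Pool.Agent.H628R4.TP
  Pool.Agent.Helper748.MC Pool.Agent.Helper748.EQ
open Pool.Agent.KS6_80.RC (HasChamber root_hasChamber ne_zero_of_chamber)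

/-- **The equivariant motivic monodromy conjecture (over `X_s`, with the action of `μ`, in the form
with the roots of `b_f`) holds for the forms `f` of degree `d > 0` in three variables which have a
chamber with a mild boundary in some linear coordinates** (`HasChamber`). Here `b` is any polynomial
which satisfies a global or local functional equation `b(s) f ^ s = P(s) f ^ (s + 1)`, in particular
the Bernstein-Sato polynomial of `f`, and `Z` is (of the form of) the equivariant motivic zeta
function of `f`, see `EqCone`, with `M = 𝓜^μ_{X_s}` as the main example. The conclusion is that `Z`
lies in the ring `M[T][(1 - L⁻ⁿ Tᵃ)⁻¹]`, where the pairs `a, n ≥ 1` are such that `-n/a` is a root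
of `b`. -/
theorem result {M : Type} [CommRing M] (L : Mˣ) (f : MvPolynomial (Fin 3) ℂ) (d : ℕ) (hd : 0 < d)
    (hf : f.IsHomogeneous d) (hU : HasChamber f d) (b : Polynomial ℂ)
    (hb : IsBFunction f b ∨ IsLocalBFunction f b) (Z : PowerSeries M) (hZ : EqCone L f d Z) :
    Z ∈ DenRing L (RootPair b) := by
  have hb' := global_of f (ne_zero_of_chamber hU) d hf b hb
  have hr : b.eval (-3 / d : ℂ) = 0 := by
    have h := root_hasChamber hd hU hb'
    rw [Nat.cast_ofNat] at h
    exact h
  exact cone_eq L f d hf b (funEq_unit f b hb') hr Z hZ

end Pool.Agent.Results.MP_b48657_ag.RealChamberForms
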