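import Pool.Agent.KS6_81.SQ.Thm
import Pool.Graph.R_pool_sql_team_seeded_620a6dc7.helper748_eq_.Main
import Pool.Graph.R_pool_sql_team_seeded_620a6dc7.helper748_mc_.FanThm

set_option autoImplicit false

/-! # The equivariant motivic monodromy conjecture for forms in three variables whose curve has
# semi-quasi-homogeneous singularities

Let `f` be a form of degree `d` in three variables. The equivariant motivic zeta function
`Z_f(T) ∈ 𝓜^μ_{X_s}[[T]]` of Denef and Loeser, over `X_s = {f = 0}` and with the action of `μ`, is
computed from the curve `f = 0` in the projective plane by blowing up points: see `EqCone`, where
`M = 𝓜^μ_{X_s}`. The classes of the coverings `Ẽ_I°` of the strata of the resolution are arbitrary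
elements of `M` in `EqCone`, except for the intersection points of components, and for the open parts
of the exceptional curves over a point on which at most two points have a nonzero intersection
number with the other components (`IsCov`): these are the classes which occur in the cancellation.
All denominators of `Z_f(T)` except `(d, 3)` belong to roots of `b_f` (starting library, `cone_eq`). The
question is whether `-3/d` is a root.

Here `f = ∏ F_i ^ n_i` has arbitrary multiplicities, and the reduced curve `h = ∏ F_i = 0`, of degree `δ`,
has semi-quasi-homogeneous singularities (`SqhForm`): in suitable étale coordinates at the singular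
point `p`, with weights `w`, the initial form of `h` has an isolated singularity. Let `D` be the weight
of `h`, and let the other terms have weights `≥ D + κ`. Put `E_p = D + 1 - 2|w| - κ` (or `0`, if this is
negative). So `E_p = 0` for quasi-homogeneous singularities (they have coordinates with an arbitrarily
large `κ`), `E_p = 1` for the exceptional unimodal plane curve singularities `x³ + y⁷ + a x y⁵`, ....
If `M = 3 ∑ n_i D_i / d` is an integer (the local system has trivial monodromy around the exceptional
divisor), then `E_p ≥ D + 1 - |w| - M`. The conditions of weight `≥ E_p` have to be independent on the
curves of degree `δ - 6`.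

Proof. If `-3/d` is not a root, then `f ^ (-3/d) Ω = d η` on the complement of the curve, `Ω` the canonical
two form with values in `O(3)`. The reduction of the pole order `N` of `η`: a vector
`θ` of forms with `h curl θ = τ × θ + h ^ (N + 1) x`, `x · θ = 0`; at `p`, the weighted homogeneous components
of `θ` of weight `< N D + min (M, |w| + κ)` come from a function, and the remaining part, times a
function of weight `E_p`, is in the submodule generated by `τ` and `h`, since its weight exceeds the
socle degree `2 D - 2 |w|` of the Milnor algebra. By Krull's theorem and the Nullstellensatz this
holds globally; for `N = 1` the factors are removed by an expansion in powers of `z`, since the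
relations between the forms `j_i` have degrees less than `δ - 3`. Finally `N = 0`: `η` is given by a
linear vector field `V` of trace zero with `V f = - (d/3) f`, a contradiction. -/

namespace Pool.Agent.Results.MP_b48657_ag.SemiQuasiHomogeneousForms

open MvPolynomial Pool.Agent.W574.CN Pool.Agent.W574.MO Pool.Agent.H628R4.TP
  Pool.Agent.Helper748.MC Pool.Agent.Helper748.EQ Pool.Agent.KS6_81.SQ

/-- **The equivariant motivic monodromy conjecture (over `X_s`, with the action of `μ`, in the form
with the roots of `b_f`) holds for the forms `f` of degree `d` in three variables whose reduced curve
has semi-quasi-homogeneous singularities with independent conditions** (`SqhForm`). Here `b` is any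
polynomial which satisfies a global or local functional equation `b(s) f ^ s = P(s) f ^ (s + 1)`, in
particular the Bernstein-Sato polynomial of `f`, and `Z` is (of the form of) the equivariant motivic
zeta function of `f`, see `EqCone`, with `M = 𝓜^μ_{X_s}` as the main example. The conclusion is that
`Z` lies in the ring `M[T][(1 - L⁻ⁿ Tᵃ)⁻¹]`, where the pairs `a, n ≥ 1` are such that `-n/a` is a root
of `b`. -/
theorem result {M : Type} [CommRing M] (L : Mˣ) (f : MvPolynomial (Fin 3) ℂ) (d : ℕ)
    (hf : f.IsHomogeneous d) (h : SqhForm d f) (b : Polynomial ℂ)
    (hb : IsBFunction f b ∨ IsLocalBFunction f b) (Z : PowerSeries M) (hZ : EqCone L f d Z) :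
    Z ∈ DenRing L (RootPair b) := by
  have hb' := global_of f h.ne_zero d hf b hb
  exact cone_eq L f d hf b (funEq_unit f b hb') (h.root hf hb') Z hZ

end Pool.Agent.Results.MP_b48657_ag.SemiQuasiHomogeneousForms
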